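import Pool.Agent.Helper13.RG.Stmts

/-! # MP_8312c9_nt, rigidity: module GEO (the geometric case) -/

set_option autoImplicit false

open scoped Classical

namespace Pool.Agent.Helper13.RG

open Pool.Agent.Helper14.BSC Pool.Agent.Helper13.ZL

/-- two representations of an element as a constant times an `n`-th power -/
theorem geo_root (hR : ST_ROOT) (hB : ST_BOT) {k Ω : Type} [Field k] [Field Ω] [Algebra k Ω]
    [CharZero k] [IsAlgClosed Ω] (D : Sec k Ω) (x : LL D) (hx : x ≠ 0) (b c : k) (hc : c ≠ 0)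
    (g h : LL D) (n : ℕ) (hn : 0 < n) (h1 : x = algebraMap k (LL D) b * g ^ n)
    (h2 : x = algebraMap k (LL D) c * h ^ n) : ∃ t : k, b = c * t ^ n := by
  have hg : g ≠ 0 := by
    rintro rfl
    rw [zero_pow hn.ne', mul_zero] at h1
    exact hx h1
  have hgn : g ^ n ≠ 0 := pow_ne_zero _ hg
  have hcL : algebraMap k (LL D) c ≠ 0 := fun h0 => hc ((map_eq_zero _).1 h0)
  have e : (h / g) ^ n = algebraMap k (LL D) (b / c) := by
    rw [div_pow, map_div₀, div_eq_div_iff hgn hcL, ← h1, h2, mul_comm]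
  have e' : (h / g) ^ n = inc D ∅ (algebraMap k (FF (∅ : Set (Acl k Ω))) (b / c)) := by
    rw [AlgHom.commutes]
    exact e
  obtain ⟨d, hd⟩ := hR k Ω D ∅ n hn (h / g) _ e'
  obtain ⟨t, ht⟩ := hB k Ω (d : Acl k Ω) d.2
  have h3 : h / g = algebraMap k (LL D) t := by
    rw [hd]
    apply Subtype.ext
    rw [coe_inc, ht]
    rfl
  refine ⟨t, ?_⟩
  rw [h3, ← map_pow] at e
  have h4 : t ^ n = b / c := (algebraMap k (LL D)).injective e
  rw [h4]
  field_simp

/-- inverses of elements near `1` -/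
theorem geo_near {k : Type} [Field k] [NumberField k] (v : Pl k) (a : k) (h : Near v a) :
    Near v a⁻¹ := by
  have h' : v.valuation k (a - 1) < 1 := h
  have h1 : v.valuation k a = 1 := by
    have e : a = (a - 1) + 1 := by ring
    rw [e, Valuation.map_add_eq_of_lt_right, map_one]
    rw [map_one]
    exact h'
  have ha : a ≠ 0 := by
    rintro rfl
    rw [map_zero] at h1
    exact zero_ne_one h1
  show v.valuation k (a⁻¹ - 1) < 1
  have e : a⁻¹ - 1 = -((a - 1) * a⁻¹) := by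
    field_simp
    ring
  rw [e, Valuation.map_neg, map_mul, map_inv₀, h1, inv_one, mul_one]
  exact h'

theorem st_GEO (h1 : ST_GE1) (h2 : ST_GE2) (h3 : ST_GE3) (hZ : ST_ZLD) (hD : ST_DLIB)
    (hR : ST_ROOT) (hB : ST_BOT) : ST_GEO := by
  intro k K Ω _ _ _ _ _ _ _ _ _ _ D D' ht hs hs' hCE O hG
  have hkO : ∀ c : k, algebraMap k K c ∈ O := hG.2.1
  -- elements of `K` as elements of the fixed fields
  have hfix : ∀ f : K, algebraMap K Ω f ∈ LL D := fun f g _ => hs g f
  have hfix' : ∀ f : K, algebraMap K Ω f ∈ LL D' := fun f g _ => hs' g f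
  have htower : ∀ t : k, algebraMap K Ω (algebraMap k K t) = algebraMap k Ω t := fun t =>
    (IsScalarTower.algebraMap_apply k K Ω t).symm
  -- step 1: `D'` is geometric
  have hstep1 : ∃ O' : ValuationSubring K, GeoV k K Ω D' O' := by
    obtain ⟨g, hg⟩ : ∃ g : K, g ∉ O := by
      by_contra hcon
      push Not at hcon
      exact hG.1 (eq_top_iff.2 fun z _ => hcon z)
    have hg0 : g ≠ 0 := by
      rintro rfl
      exact hg O.zero_mem
    have hf : (1 + g⁻¹ : K) ∉ (algebraMap k K).range := by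
      rintro ⟨c, hc⟩
      apply hg
      have e : g = algebraMap k K (c - 1)⁻¹ := by
        rw [map_inv₀, map_sub, map_one, hc]
        simp
      rw [e]
      exact hkO _
    have hval : O.valuation ((1 + g⁻¹ : K) - algebraMap k K 1) < 1 := by
      have e : (1 + g⁻¹ : K) - algebraMap k K 1 = g⁻¹ := by
        rw [map_one]
        ring
      rw [e, map_inv₀]
      have h5 : ¬ O.valuation g ≤ 1 := fun h6 => hg ((O.valuation_le_one_iff g).1 h6)
      exact inv_lt_one_of_one_lt₀ (not_le.1 h5)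
    set f : K := 1 + g⁻¹ with hfdef
    have hnn := hCE f hf ⟨algebraMap K Ω f, hfix f⟩ ⟨algebraMap K Ω f, hfix' f⟩ rfl rfl
    set x : LL D := ⟨algebraMap K Ω f, hfix f⟩ with hx
    set y : LL D' := ⟨algebraMap K Ω f, hfix' f⟩ with hy
    have hf0 : f ≠ 0 := by
      intro h0
      exact hf ⟨0, by rw [map_zero, h0]⟩
    have hΩ : algebraMap K Ω f ≠ 0 := fun h0 => hf0 ((map_eq_zero _).1 h0)
    have hx0 : x ≠ 0 := fun h0 => hΩ (congrArg Subtype.val h0)
    have hy0 : y ≠ 0 := fun h0 => hΩ (congrArg Subtype.val h0)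
    refine (hZ k K Ω D' ht hs').2 ⟨y, ?_, ?_⟩
    · intro c hc
      apply hf
      refine ⟨c, ?_⟩
      have h6 : algebraMap K Ω f = algebraMap k Ω c := congrArg Subtype.val hc
      rw [← htower] at h6
      exact ((algebraMap K Ω).injective h6).symm
    · intro hnull
      apply hnn
      refine (hD k).1 _ _ ?_ hnull
      intro v hv
      have hv' : CE D D' v x y := hv
      show CO D' v y
      intro N hN
      obtain ⟨b, b', u, u', hxu, hyu, hnear⟩ := hv' N hN
      obtain ⟨h, hh⟩ := h1 k K Ω D O hG f 1 one_ne_zero hval x rfl N hN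
      obtain ⟨t, ht⟩ := geo_root hR hB D x hx0 b 1 one_ne_zero u h N hN hxu hh
      have hb' : b' ≠ 0 := by
        rintro rfl
        rw [map_zero, zero_mul] at hyu
        exact hy0 hyu
      have hb : b ≠ 0 := by
        rintro rfl
        rw [map_zero, zero_mul] at hxu
        exact hx0 hxu
      refine ⟨b' / b, algebraMap k (LL D') t * u', ?_, ?_⟩
      · rw [one_mul] at ht
        rw [mul_pow, ← map_pow, ← ht, ← mul_assoc, ← map_mul, div_mul_cancel₀ _ hb]
        exact hyu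
      · have h7 := geo_near v _ hnear
        rwa [inv_div] at h7
  obtain ⟨O', hG'⟩ := hstep1
  -- step 2
  by_cases hOO : O = O'
  · rw [hOO]
    exact hG'
  exfalso
  obtain ⟨f, hf, hf1, hf2⟩ := h2 k K O O' hkO hG.2.2.1 hG'.2.1 hG'.2.2.1 hOO
  have hnn := hCE f hf ⟨algebraMap K Ω f, hfix f⟩ ⟨algebraMap K Ω f, hfix' f⟩ rfl rfl
  set x : LL D := ⟨algebraMap K Ω f, hfix f⟩ with hx
  set y : LL D' := ⟨algebraMap K Ω f, hfix' f⟩ with hy
  have hf0 : f ≠ 0 := by
    intro h0
    exact hf ⟨0, by rw [map_zero, h0]⟩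
  have hΩ : algebraMap K Ω f ≠ 0 := fun h0 => hf0 ((map_eq_zero _).1 h0)
  have hx0 : x ≠ 0 := fun h0 => hΩ (congrArg Subtype.val h0)
  have hy0 : y ≠ 0 := fun h0 => hΩ (congrArg Subtype.val h0)
  apply hnn
  refine (hD k).1 _ _ ?_ (h3 k)
  intro v hv n hn
  have hv' : CE D D' v x y := hv
  obtain ⟨b, b', u, u', hxu, hyu, hnear⟩ := hv' n hn
  obtain ⟨h, hh⟩ := h1 k K Ω D O hG f 1 one_ne_zero hf1 x rfl n hn
  obtain ⟨h', hh'⟩ := h1 k K Ω D' O' hG' f 2 two_ne_zero hf2 y rfl n hn
  obtain ⟨t, ht⟩ := geo_root hR hB D x hx0 b 1 one_ne_zero u h n hn hxu hh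
  obtain ⟨t', ht'⟩ := geo_root hR hB D' y hy0 b' 2 two_ne_zero u' h' n hn hyu hh'
  refine ⟨t / t', ?_⟩
  have e : (t / t') ^ n / 2 = b / b' := by
    rw [ht, ht', div_pow, one_mul, div_div, mul_comm]
  rw [e]
  exact hnear

end Pool.Agent.Helper13.RG
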